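import Mathlib

set_option autoImplicit false

open scoped ComplexOrder

noncomputable section

namespace Pool.Agent.Helper757.GL

variable {A : Type*} [CStarAlgebra A]

/-- `cut x δ = δ (x^* x + δ)⁻¹`, by functional calculus. -/
def cut (x : A) (δ : ℝ) : A := cfc (fun t : ℝ => δ / (t + δ)) (star x * x)

/-- `cog x δ = (x^* x + δ)⁻¹`. -/
def cog (x : A) (δ : ℝ) : A := cfc (fun t : ℝ => 1 / (t + δ)) (star x * x)

theorem spec_nonneg (x : A) : ∀ t ∈ spectrum ℝ (star x * x), 0 ≤ t := by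
  let _ := CStarAlgebra.spectralOrder A
  let _ := CStarAlgebra.spectralOrderedRing A
  intro t ht
  exact spectrum_nonneg_of_nonneg (star_mul_self_nonneg x) ht

theorem cont1 (x : A) {δ : ℝ} (hδ : 0 < δ) (c : ℝ) :
    ContinuousOn (fun t : ℝ => c / (t + δ)) (spectrum ℝ (star x * x)) := by
  apply ContinuousOn.div (by fun_prop) (by fun_prop)
  intro t ht
  have := spec_nonneg x t ht
  positivity

theorem sa (x : A) : IsSelfAdjoint (star x * x) := IsSelfAdjoint.star_mul_self x

theorem cut_sa (x : A) (δ : ℝ) : star (cut x δ) = cut x δ :=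
  (cfc_predicate (R := ℝ) _ _ : IsSelfAdjoint (cut x δ))

theorem norm_cut_le (x : A) {δ : ℝ} (hδ : 0 < δ) : ‖cut x δ‖ ≤ 1 := by
  apply norm_cfc_le zero_le_one
  intro t ht
  have := spec_nonneg x t ht
  rw [Real.norm_of_nonneg (by positivity), div_le_one (by positivity)]
  linarith

theorem one_sub_cut (x : A) {δ : ℝ} (hδ : 0 < δ) : 1 - cut x δ = (star x * x) * cog x δ := by
  have h1 : (1 : A) = cfc (fun _ : ℝ => (1 : ℝ)) (star x * x) := (cfc_const_one ℝ _ (sa x)).symm
  have h2 : star x * x = cfc (fun t : ℝ => t) (star x * x) := (cfc_id' ℝ _ (sa x)).symm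
  unfold cut cog
  conv_lhs => rw [h1]
  conv_rhs => enter [1]; rw [h2]
  rw [← cfc_sub _ _ _ (by fun_prop) (cont1 x hδ δ), ← cfc_mul _ _ _ (by fun_prop) (cont1 x hδ 1)]
  apply cfc_congr
  intro t ht
  have := spec_nonneg x t ht
  have h3 : t + δ ≠ 0 := by positivity
  show 1 - δ / (t + δ) = t * (1 / (t + δ))
  field_simp
  ring

theorem norm_mul_cut_sq (x : A) {δ : ℝ} (hδ : 0 < δ) : ‖x * cut x δ‖ ^ 2 ≤ δ := by
  have h1 : ‖x * cut x δ‖ ^ 2 = ‖cut x δ * (star x * x) * cut x δ‖ := by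
    rw [sq, ← CStarRing.norm_star_mul_self, star_mul, cut_sa]
    congr 1
    simp only [mul_assoc]
  rw [h1]
  have h2 : star x * x = cfc (fun t : ℝ => t) (star x * x) := (cfc_id' ℝ _ (sa x)).symm
  have h3 : cut x δ * (star x * x) * cut x δ
      = cfc (fun t : ℝ => δ / (t + δ) * t * (δ / (t + δ))) (star x * x) := by
    rw [cfc_mul (fun t : ℝ => δ / (t + δ) * t) (fun t : ℝ => δ / (t + δ)) _
        ((cont1 x hδ δ).mul (by fun_prop)) (cont1 x hδ δ),
      cfc_mul (fun t : ℝ => δ / (t + δ)) (fun t : ℝ => t) _ (cont1 x hδ δ) (by fun_prop), ← h2]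
    rfl
  rw [h3]
  apply norm_cfc_le hδ.le
  intro t ht
  have := spec_nonneg x t ht
  rw [Real.norm_of_nonneg (by positivity)]
  have h4 : δ / (t + δ) * t * (δ / (t + δ)) = δ * (δ * t) / (t + δ) ^ 2 := by
    field_simp
  rw [h4, div_le_iff₀ (by positivity)]
  nlinarith [mul_nonneg hδ.le this, sq_nonneg t, mul_nonneg hδ.le hδ.le]

theorem norm_mul_cut_lt (x : A) {ε : ℝ} (hε : 0 < ε) : ∃ δ : ℝ, 0 < δ ∧ ‖x * cut x δ‖ < ε := by
  refine ⟨(ε / 2) ^ 2, by positivity, ?_⟩
  have h1 := norm_mul_cut_sq x (δ := (ε / 2) ^ 2) (by positivity)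
  have h2 : ‖x * cut x ((ε / 2) ^ 2)‖ ≤ ε / 2 := by
    exact le_of_sq_le_sq h1 (by positivity)
  linarith

/-- If `x` is central, so is `cut x δ`. -/
theorem cut_comm (x : A) (δ : ℝ) (hx : ∀ a, x * a = a * x) (a : A) :
    cut x δ * a = a * cut x δ := by
  apply Commute.cfc_real
  have hs : ∀ a, star x * a = a * star x := by
    intro a
    have := congrArg star (hx (star a))
    rw [star_mul, star_mul, star_star] at this
    exact this.symm
  show star x * x * a = a * (star x * x)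
  rw [mul_assoc, hx a, ← mul_assoc, hs a, mul_assoc]

theorem cog_comm (x : A) (δ : ℝ) (hx : ∀ a, x * a = a * x) (a : A) :
    cog x δ * a = a * cog x δ := by
  apply Commute.cfc_real
  have hs : ∀ a, star x * a = a * star x := by
    intro a
    have := congrArg star (hx (star a))
    rw [star_mul, star_mul, star_star] at this
    exact this.symm
  show star x * x * a = a * (star x * x)
  rw [mul_assoc, hx a, ← mul_assoc, hs a, mul_assoc]

end Pool.Agent.Helper757.GL
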