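import Mathlib

set_option autoImplicit false

namespace Pool.Agent.Helper757.GL

/-- The closed two-sided ideal of `A` generated by a set `S`: the elements lying in every closed
two-sided ideal that contains `S`. -/
def closedIdeal {A : Type*} [CStarAlgebra A] (S : Set A) : Set A :=
  {x | ∀ I : TwoSidedIdeal A, IsClosed (I : Set A) → S ⊆ (I : Set A) → x ∈ I}

/-- An ideal `m` of the centre of `A`, as a set of elements of `A`. -/
def carrier {A : Type*} [CStarAlgebra A] (m : Ideal (Subalgebra.center ℂ A)) : Set A :=
  {a | ∃ z ∈ m, (z : A) = a}

end Pool.Agent.Helper757.GL
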