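import Pool.Agent.Helper757.GL.Cutoff

set_option autoImplicit false

/-!
The quotient of a unital C*-algebra by a closed two-sided ideal is a C*-algebra (adapted from the
quotient construction of helper763 in `Pool.Agent.H763.StenoQuot`).
-/

noncomputable section

namespace Pool.Agent.Helper757.GL

/-- Closed two-sided ideals. -/
structure CI {A : Type*} [CStarAlgebra A] (I : Submodule ℂ A) : Prop where
  closed : IsClosed (I : Set A)
  hl : ∀ a : A, ∀ x ∈ I, a * x ∈ I
  hr : ∀ a : A, ∀ x ∈ I, x * a ∈ I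

variable {A : Type*} [CStarAlgebra A] {I : Submodule ℂ A}

theorem CI.sub_cut_mem (H : CI I) {x : A} (hx : x ∈ I) {δ : ℝ} (hδ : 0 < δ) :
    1 - cut x δ ∈ I := by
  rw [one_sub_cut x hδ]
  exact H.hr _ _ (H.hl _ _ hx)

theorem CI.star_mem (H : CI I) {x : A} (hx : x ∈ I) : star x ∈ I := by
  have h1 : star x ∈ closure (I : Set A) := by
    rw [Metric.mem_closure_iff]
    intro ε hε
    obtain ⟨δ, hδ, h2⟩ := norm_mul_cut_lt x hε
    refine ⟨(1 - cut x δ) * star x, H.hr _ _ (H.sub_cut_mem hx hδ), ?_⟩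
    rw [dist_eq_norm]
    have h3 : star x - (1 - cut x δ) * star x = star (x * cut x δ) := by
      rw [star_mul, cut_sa, sub_mul, one_mul, sub_sub_cancel]
    rw [h3, norm_star]
    exact h2
  rwa [H.closed.closure_eq] at h1

def mulQ (H : CI I) : (A ⧸ I) → (A ⧸ I) → (A ⧸ I) :=
  Quotient.map₂ (fun a b => a * b) (by
    intro a₁ a₂ ha b₁ b₂ hb
    have ha' : a₁ - a₂ ∈ I := (Submodule.quotientRel_def I).1 ha
    have hb' : b₁ - b₂ ∈ I := (Submodule.quotientRel_def I).1 hb
    refine (Submodule.quotientRel_def I).2 ?_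
    have : a₁ * b₁ - a₂ * b₂ = (a₁ - a₂) * b₁ + a₂ * (b₁ - b₂) := by
      simp [mul_sub, sub_mul]
    show a₁ * b₁ - a₂ * b₂ ∈ I
    rw [this]
    exact I.add_mem (H.hr _ _ ha') (H.hl _ _ hb'))

def starQ (H : CI I) : (A ⧸ I) → (A ⧸ I) :=
  Quotient.map (fun a => star a) (by
    intro a₁ a₂ ha
    have ha' : a₁ - a₂ ∈ I := (Submodule.quotientRel_def I).1 ha
    refine (Submodule.quotientRel_def I).2 ?_
    show star a₁ - star a₂ ∈ I
    rw [← star_sub]
    exact H.star_mem ha')

/-- the quotient, as a fresh type -/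
def Q (_H : CI I) : Type _ := A ⧸ I

instance (H : CI I) : NormedAddCommGroup (Q H) :=
  haveI : IsClosed (I : Set A) := H.closed
  (Submodule.Quotient.normedAddCommGroup I : NormedAddCommGroup (A ⧸ I))

instance instSMul (H : CI I) : SMul ℂ (Q H) :=
  ⟨fun c x => ((c • (show A ⧸ I from x) : A ⧸ I) : Q H)⟩

theorem norm_smul_Q (H : CI I) (c : ℂ) (x : Q H) : ‖c • x‖ ≤ ‖c‖ * ‖x‖ := by
  haveI : IsClosed (I : Set A) := H.closed
  exact norm_smul_le c (show A ⧸ I from x)

instance (H : CI I) : CompleteSpace (Q H) :=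
  haveI : IsClosed (I : Set A) := H.closed
  (Submodule.Quotient.completeSpace I : CompleteSpace (A ⧸ I))

def mk (H : CI I) (a : A) : Q H := (Submodule.Quotient.mk a : A ⧸ I)

theorem mk_surj (H : CI I) : Function.Surjective (mk H) := Submodule.Quotient.mk_surjective I

theorem mk_add (H : CI I) (a b : A) : mk H (a + b) = mk H a + mk H b := rfl
theorem mk_sub (H : CI I) (a b : A) : mk H (a - b) = mk H a - mk H b := rfl
theorem mk_smul (H : CI I) (c : ℂ) (b : A) : mk H (c • b) = c • mk H b := rfl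
theorem mk_zero (H : CI I) : mk H 0 = 0 := rfl

theorem mk_eq (H : CI I) (a b : A) : mk H a = mk H b ↔ a - b ∈ I := Submodule.Quotient.eq I

theorem norm_mk_le (H : CI I) (a : A) : ‖mk H a‖ ≤ ‖a‖ := Submodule.Quotient.norm_mk_le I a

theorem exists_rep (H : CI I) (x : Q H) {ε : ℝ} (hε : 0 < ε) :
    ∃ m : A, mk H m = x ∧ ‖m‖ < ‖x‖ + ε := Submodule.Quotient.norm_mk_lt (S := I) x hε

instance (H : CI I) : Mul (Q H) := ⟨mulQ H⟩
instance (H : CI I) : One (Q H) := ⟨mk H 1⟩
instance (H : CI I) : Star (Q H) := ⟨starQ H⟩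

theorem mk_mul (H : CI I) (a b : A) : mk H (a * b) = mk H a * mk H b := rfl
theorem mk_star (H : CI I) (a : A) : mk H (star a) = star (mk H a) := rfl
theorem mk_one (H : CI I) : mk H 1 = 1 := rfl

instance instRing (H : CI I) : Ring (Q H) :=
  { (inferInstance : NormedAddCommGroup (Q H)), (inferInstance : Mul (Q H)),
    (inferInstance : One (Q H)) with
    left_distrib := by
      intro x y z
      obtain ⟨a, rfl⟩ := mk_surj H x
      obtain ⟨b, rfl⟩ := mk_surj H y
      obtain ⟨c, rfl⟩ := mk_surj H z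
      rw [← mk_add, ← mk_mul, ← mk_mul, ← mk_mul, ← mk_add, mul_add]
    right_distrib := by
      intro x y z
      obtain ⟨a, rfl⟩ := mk_surj H x
      obtain ⟨b, rfl⟩ := mk_surj H y
      obtain ⟨c, rfl⟩ := mk_surj H z
      rw [← mk_add, ← mk_mul, ← mk_mul, ← mk_mul, ← mk_add, add_mul]
    zero_mul := by
      intro x
      obtain ⟨a, rfl⟩ := mk_surj H x
      show mk H 0 * mk H a = mk H 0
      rw [← mk_mul, zero_mul]
    mul_zero := by
      intro x
      obtain ⟨a, rfl⟩ := mk_surj H x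
      show mk H a * mk H 0 = mk H 0
      rw [← mk_mul, mul_zero]
    mul_assoc := by
      intro x y z
      obtain ⟨a, rfl⟩ := mk_surj H x
      obtain ⟨b, rfl⟩ := mk_surj H y
      obtain ⟨c, rfl⟩ := mk_surj H z
      rw [← mk_mul, ← mk_mul, ← mk_mul, ← mk_mul, mul_assoc]
    one_mul := by
      intro x
      obtain ⟨a, rfl⟩ := mk_surj H x
      rw [← mk_one, ← mk_mul, one_mul]
    mul_one := by
      intro x
      obtain ⟨a, rfl⟩ := mk_surj H x
      rw [← mk_one, ← mk_mul, mul_one]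
 }

instance instNormedRing (H : CI I) : NormedRing (Q H) :=
  { (inferInstance : NormedAddCommGroup (Q H)), instRing H with
    norm_mul_le := by
      intro x y
      apply le_of_forall_pos_le_add
      intro ε hε
      have hc : Filter.Tendsto (fun δ : ℝ => (‖x‖ + δ) * (‖y‖ + δ)) (nhds 0)
          (nhds ((‖x‖ + 0) * (‖y‖ + 0))) := by
        apply Continuous.tendsto
        fun_prop
      have hev : ∀ᶠ δ in nhdsWithin (0 : ℝ) (Set.Ioi 0), (‖x‖ + δ) * (‖y‖ + δ) < ‖x‖ * ‖y‖ + ε := by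
        have h2 := (hc.mono_left (nhdsWithin_le_nhds (s := Set.Ioi (0 : ℝ))))
        apply h2.eventually_lt_const
        simp only [add_zero]
        linarith
      obtain ⟨δ, hδ, hδ0⟩ := (hev.and self_mem_nhdsWithin).exists
      have hδ0' : (0 : ℝ) < δ := hδ0
      obtain ⟨a, ha, ha'⟩ := exists_rep H x hδ0'
      obtain ⟨b, hb, hb'⟩ := exists_rep H y hδ0'
      calc ‖x * y‖ = ‖mk H (a * b)‖ := by rw [mk_mul, ha, hb]
        _ ≤ ‖a * b‖ := norm_mk_le H _
        _ ≤ ‖a‖ * ‖b‖ := norm_mul_le _ _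
        _ ≤ (‖x‖ + δ) * (‖y‖ + δ) := by
          apply mul_le_mul ha'.le hb'.le (norm_nonneg _)
          positivity
        _ ≤ ‖x‖ * ‖y‖ + ε := hδ.le }

instance instStarRing (H : CI I) : StarRing (Q H) where
  star_involutive := by
    intro x
    obtain ⟨a, rfl⟩ := mk_surj H x
    rw [← mk_star, ← mk_star, star_star]
  star_mul := by
    intro x y
    obtain ⟨a, rfl⟩ := mk_surj H x
    obtain ⟨b, rfl⟩ := mk_surj H y
    rw [← mk_mul, ← mk_star, ← mk_star, ← mk_star, ← mk_mul, star_mul]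
  star_add := by
    intro x y
    obtain ⟨a, rfl⟩ := mk_surj H x
    obtain ⟨b, rfl⟩ := mk_surj H y
    rw [← mk_add, ← mk_star, ← mk_star, ← mk_star, ← mk_add, star_add]

instance instModule (H : CI I) : Module ℂ (Q H) where
  smul := fun c x => c • x
  one_smul := by
    intro x
    obtain ⟨a, rfl⟩ := mk_surj H x
    rw [← mk_smul, one_smul]
  mul_smul := by
    intro r t x
    obtain ⟨a, rfl⟩ := mk_surj H x
    rw [← mk_smul, ← mk_smul, ← mk_smul, mul_smul]
  smul_zero := by
    intro r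
    rw [← mk_zero, ← mk_smul, smul_zero]
  smul_add := by
    intro r x y
    obtain ⟨a, rfl⟩ := mk_surj H x
    obtain ⟨b, rfl⟩ := mk_surj H y
    rw [← mk_add, ← mk_smul, ← mk_smul, ← mk_smul, ← mk_add, smul_add]
  add_smul := by
    intro r t x
    obtain ⟨a, rfl⟩ := mk_surj H x
    rw [← mk_smul, ← mk_smul, ← mk_smul, ← mk_add, add_smul]
  zero_smul := by
    intro x
    obtain ⟨a, rfl⟩ := mk_surj H x
    rw [← mk_smul, zero_smul, mk_zero]

theorem mk_smul' (H : CI I) (c : ℂ) (b : A) : mk H (c • b) = c • mk H b := rfl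

instance instAlgebra (H : CI I) : Algebra ℂ (Q H) :=
  Algebra.ofModule
    (by
      intro r x y
      obtain ⟨a, rfl⟩ := mk_surj H x
      obtain ⟨b, rfl⟩ := mk_surj H y
      rw [← mk_smul', ← mk_mul, ← mk_mul, ← mk_smul', smul_mul_assoc])
    (by
      intro r x y
      obtain ⟨a, rfl⟩ := mk_surj H x
      obtain ⟨b, rfl⟩ := mk_surj H y
      rw [← mk_smul', ← mk_mul, ← mk_mul, ← mk_smul', mul_smul_comm])

instance instNormedAlgebra (H : CI I) : NormedAlgebra ℂ (Q H) where
  norm_smul_le := by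
    intro r x
    exact norm_smul_Q H r x

instance instStarModule (H : CI I) : StarModule ℂ (Q H) where
  star_smul := by
    intro r x
    obtain ⟨a, rfl⟩ := mk_surj H x
    rw [← mk_smul', ← mk_star, ← mk_star, star_smul, mk_smul']

instance instCStarRing (H : CI I) : CStarRing (Q H) where
  norm_mul_self_le := by
    intro x
    obtain ⟨a, rfl⟩ := mk_surj H x
    apply le_of_forall_pos_le_add
    intro ε hε
    rw [← mk_star, ← mk_mul]
    obtain ⟨m, hm, hm'⟩ := exists_rep H (mk H (star a * a)) (half_pos hε)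
    have hi : m - star a * a ∈ I := (mk_eq H _ _).1 hm
    obtain ⟨δ, hδ, h3⟩ := norm_mul_cut_lt (m - star a * a) (half_pos hε)
    set e := cut (m - star a * a) δ with he
    have he1 : 1 - e ∈ I := H.sub_cut_mem hi hδ
    have he2 : ‖e‖ ≤ 1 := norm_cut_le _ hδ
    have he3 : star e = e := cut_sa _ _
    have e0 : mk H a = mk H (a * e) := by
      rw [mk_eq]
      have := H.hl a _ he1
      rwa [mul_sub, mul_one] at this
    have e1 : ‖mk H a‖ ≤ ‖a * e‖ := by
      rw [e0]; exact norm_mk_le H _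
    have e2 : ‖a * e‖ * ‖a * e‖ = ‖star (a * e) * (a * e)‖ :=
      (CStarRing.norm_star_mul_self (x := a * e)).symm
    have e3 : star (a * e) * (a * e) = e * (m * e) - e * ((m - star a * a) * e) := by
      rw [star_mul, he3]
      simp only [mul_sub, sub_mul, mul_assoc]
      abel
    have e4 : ‖e * (m * e)‖ ≤ ‖m‖ := by
      calc ‖e * (m * e)‖ ≤ ‖e‖ * (‖m‖ * ‖e‖) :=
            (norm_mul_le _ _).trans (mul_le_mul_of_nonneg_left (norm_mul_le _ _) (norm_nonneg _))
        _ ≤ 1 * (‖m‖ * 1) := by gcongr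
        _ = ‖m‖ := by ring
    have e5 : ‖e * ((m - star a * a) * e)‖ ≤ ε / 2 := by
      calc ‖e * ((m - star a * a) * e)‖ ≤ ‖e‖ * ‖(m - star a * a) * e‖ := norm_mul_le _ _
        _ ≤ 1 * (ε / 2) := by
            gcongr
        _ = ε / 2 := one_mul _
    calc ‖mk H a‖ * ‖mk H a‖ ≤ ‖a * e‖ * ‖a * e‖ :=
          mul_le_mul e1 e1 (norm_nonneg _) (norm_nonneg _)
      _ = ‖e * (m * e) - e * ((m - star a * a) * e)‖ := by rw [e2, e3]
      _ ≤ ‖e * (m * e)‖ + ‖e * ((m - star a * a) * e)‖ := norm_sub_le _ _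
      _ ≤ ‖mk H (star a * a)‖ + ε := by linarith

instance instCStarAlgebra (H : CI I) : CStarAlgebra (Q H) where

/-- the quotient map -/
def mkHom (H : CI I) : A →ₐ[ℂ] Q H where
  toFun := mk H
  map_zero' := mk_zero H
  map_add' := mk_add H
  map_mul' := mk_mul H
  map_one' := mk_one H
  commutes' := by
    intro c
    rw [Algebra.algebraMap_eq_smul_one, Algebra.algebraMap_eq_smul_one, mk_smul', mk_one]

theorem mkHom_eq_zero (H : CI I) (a : A) : mkHom H a = 0 ↔ a ∈ I := by
  have := mk_eq H a 0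
  rw [sub_zero] at this
  exact this

theorem mkHom_surj (H : CI I) : Function.Surjective (mkHom H) := mk_surj H

end Pool.Agent.Helper757.GL
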