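import Mathlib

set_option autoImplicit false

open scoped ComplexOrder Topology
open Filter

noncomputable section

namespace Pool.Agent.Helper757.GL

section powers

variable {C : Type*} [NormedRing C] [NormedAlgebra ℂ C] [CompleteSpace C]

/-- Gelfand formula, in the form used below. -/
theorem eventually_pow_lt [Nontrivial C] (a : C) {M ρ : ℝ} (hM : 0 ≤ M) (hρ : M < ρ)
    (h : ∀ μ ∈ spectrum ℂ a, ‖μ‖ ≤ M) : ∃ k₀ : ℕ, ∀ k ≥ k₀, ‖a ^ k‖ < ρ ^ k := by
  have hρ0 : 0 < ρ := hM.trans_lt hρ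
  have h1 : spectralRadius ℂ a ≤ ENNReal.ofReal M := by
    unfold spectralRadius
    apply iSup₂_le
    intro μ hμ
    exact ENNReal.coe_le_coe.2 (NNReal.le_toNNReal_of_coe_le (h μ hμ))
  have h2 : spectralRadius ℂ a < ENNReal.ofReal ρ :=
    h1.trans_lt ((ENNReal.ofReal_lt_ofReal_iff hρ0).2 hρ)
  have h3 := (spectrum.pow_norm_pow_one_div_tendsto_nhds_spectralRadius a).eventually_lt_const h2
  obtain ⟨k₀, hk₀⟩ := eventually_atTop.1 h3
  refine ⟨max k₀ 1, fun k hk => ?_⟩
  have hk1 : k₀ ≤ k := (le_max_left _ _).trans hk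
  have hk2 : 1 ≤ k := (le_max_right _ _).trans hk
  have h4 := hk₀ k hk1
  rw [ENNReal.ofReal_lt_ofReal_iff hρ0] at h4
  have h5 : (‖a ^ k‖ ^ (1 / (k : ℝ))) ^ (k : ℝ) < ρ ^ (k : ℝ) :=
    Real.rpow_lt_rpow (by positivity) h4 (by positivity)
  rw [← Real.rpow_mul (norm_nonneg _), one_div, inv_mul_cancel₀ (by positivity), Real.rpow_one,
    Real.rpow_natCast] at h5
  exact h5

/-- uniform version on circles -/
theorem exists_uniform [Nontrivial C] (b q : C) {M ρ : ℝ} (hM : 0 ≤ M) (hρ : M < ρ)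
    (h : ∀ l : ℂ, ∀ μ ∈ spectrum ℂ (b + l • q), ‖μ‖ ≤ M) (R : ℝ) :
    ∃ k : ℕ, 1 ≤ k ∧ ∀ l : ℂ, ‖l‖ = R → ‖(b + l • q) ^ 2 ^ k‖ < ρ ^ 2 ^ k := by
  have hρ0 : 0 < ρ := hM.trans_lt hρ
  let U : ℕ → Set ℂ := fun k => {l | ‖(b + l • q) ^ 2 ^ k‖ < ρ ^ 2 ^ k}
  have hUo : ∀ k, IsOpen (U k) := fun k => isOpen_lt (by fun_prop) continuous_const
  have hUm : Monotone U := by
    apply monotone_nat_of_le_succ
    intro k l hl
    have hl' : ‖(b + l • q) ^ 2 ^ k‖ < ρ ^ 2 ^ k := hl
    show ‖(b + l • q) ^ 2 ^ (k + 1)‖ < ρ ^ 2 ^ (k + 1)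
    rw [pow_succ, pow_mul, pow_mul]
    refine (norm_pow_le' _ (by norm_num)).trans_lt ?_
    exact pow_lt_pow_left₀ hl' (norm_nonneg _) (by norm_num)
  have hcov : Metric.sphere (0 : ℂ) R ⊆ ⋃ k, U k := by
    intro l _
    obtain ⟨k₀, hk₀⟩ := eventually_pow_lt (b + l • q) hM hρ (h l)
    rw [Set.mem_iUnion]
    exact ⟨k₀, hk₀ _ (Nat.lt_two_pow_self).le⟩
  obtain ⟨k, hk⟩ := (isCompact_sphere (0 : ℂ) R).elim_directed_cover U hUo hcov hUm.directed_le
  refine ⟨max k 1, le_max_right _ _, fun l hl => ?_⟩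
  exact hUm (le_max_left k 1) (hk (by simpa using hl))

/-- powers of a pencil are polynomials -/
theorem exists_coeff (b q : C) (n : ℕ) : ∃ p : ℕ → C, ∀ l : ℂ,
    (b + l • q) ^ n = ∑ i ∈ Finset.range (n + 1), l ^ i • p i := by
  induction n with
  | zero => exact ⟨fun _ => 1, fun l => by simp⟩
  | succ n ih =>
    obtain ⟨p, hp⟩ := ih
    refine ⟨fun i => (if i ≤ n then p i * b else 0) + (if i = 0 then 0 else p (i - 1) * q), fun l => ?_⟩
    rw [pow_succ, hp l, Finset.sum_mul]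
    simp_rw [smul_add, Finset.sum_add_distrib]
    have h1 : ∑ i ∈ Finset.range (n + 1 + 1), l ^ i • (if i ≤ n then p i * b else 0)
        = ∑ i ∈ Finset.range (n + 1), l ^ i • (p i * b) := by
      rw [Finset.sum_range_succ, if_neg (by omega), smul_zero, add_zero]
      apply Finset.sum_congr rfl
      intro i hi
      rw [Finset.mem_range] at hi
      rw [if_pos (by omega)]
    have h2 : ∑ i ∈ Finset.range (n + 1 + 1), l ^ i • (if i = 0 then 0 else p (i - 1) * q)
        = ∑ i ∈ Finset.range (n + 1), l ^ (i + 1) • (p i * q) := by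
      rw [Finset.sum_range_succ', if_pos rfl, smul_zero, add_zero]
      apply Finset.sum_congr rfl
      intro i _
      rw [if_neg (by omega), Nat.add_sub_cancel]
    rw [h1, h2, ← Finset.sum_add_distrib]
    apply Finset.sum_congr rfl
    intro i _
    rw [mul_add, smul_mul_assoc, mul_smul_comm, smul_mul_assoc, pow_succ, smul_smul, mul_comm l]

end powers

/-- sums of powers of roots of unity -/
theorem root_sum {N : ℕ} {ζ : ℂ} (hζ : IsPrimitiveRoot ζ N) (e : ℕ) :
    ∑ j ∈ Finset.range N, (ζ ^ j) ^ e = if N ∣ e then (N : ℂ) else 0 := by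
  have h1 : ∀ j, (ζ ^ j) ^ e = (ζ ^ e) ^ j := fun j => by rw [← pow_mul, ← pow_mul, mul_comm]
  simp_rw [h1]
  split_ifs with h
  · rw [(hζ.pow_eq_one_iff_dvd e).2 h]
    simp
  · have h2 : ζ ^ e ≠ 1 := fun h3 => h ((hζ.pow_eq_one_iff_dvd e).1 h3)
    have h3 := mul_neg_geom_sum (ζ ^ e) N
    rw [← pow_mul, mul_comm e N, pow_mul, hζ.pow_eq_one, one_pow, sub_self] at h3
    rcases mul_eq_zero.1 h3 with h4 | h4
    · exact absurd (sub_eq_zero.1 h4).symm h2
    · exact h4

/-- extraction of the middle coefficient -/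
theorem middle {C : Type*} [AddCommGroup C] [Module ℂ C] (p : ℕ → C) (m : ℕ) {N : ℕ}
    (hN : N = 2 * m + 1) {ζ : ℂ} (hζ : IsPrimitiveRoot ζ N) (R : ℂ) :
    ∑ j ∈ Finset.range N, (ζ ^ j) ^ (N - m) • ∑ i ∈ Finset.range (2 * m + 1), (R * ζ ^ j) ^ i • p i
      = ((N : ℂ) * R ^ m) • p m := by
  have h1 : ∀ j ∈ Finset.range N, (ζ ^ j) ^ (N - m) •
      ∑ i ∈ Finset.range (2 * m + 1), (R * ζ ^ j) ^ i • p i
      = ∑ i ∈ Finset.range (2 * m + 1), ((ζ ^ j) ^ (N - m + i)) • (R ^ i • p i) := by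
    intro j _
    rw [Finset.smul_sum]
    apply Finset.sum_congr rfl
    intro i _
    rw [smul_smul, smul_smul]
    congr 1
    rw [mul_pow, pow_add]
    ring
  rw [Finset.sum_congr rfl h1, Finset.sum_comm]
  have h2 : ∀ i ∈ Finset.range (2 * m + 1),
      ∑ j ∈ Finset.range N, ((ζ ^ j) ^ (N - m + i)) • (R ^ i • p i)
      = if i = m then ((N : ℂ) * R ^ m) • p m else 0 := by
    intro i hi
    rw [Finset.mem_range] at hi
    rw [← Finset.sum_smul, root_sum hζ]
    by_cases h : i = m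
    · subst h
      have h3 : N - i + i = N := by omega
      rw [if_pos rfl, h3, if_pos dvd_rfl, smul_smul]
    · rw [if_neg h, if_neg, zero_smul]
      intro hd
      apply h
      obtain ⟨t, ht⟩ := hd
      have h5 : t = 1 := by
        by_contra h6
        rcases Nat.lt_or_ge t 2 with h7 | h7
        · interval_cases t
          · omega
          · omega
        · have : N * 2 ≤ N * t := Nat.mul_le_mul_left N h7
          omega
      rw [h5] at ht
      omega
  rw [Finset.sum_congr rfl h2, Finset.sum_ite_eq' (Finset.range (2 * m + 1)) m, if_pos]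
  rw [Finset.mem_range]
  omega

section cstar

variable {C : Type*} [CStarAlgebra C]

theorem scalar_contra {m : ℕ} (hm : 1 ≤ m) : ¬ ((16 : ℝ) ^ m ≤ 2 * m + 1) := by
  intro h
  have h1 : (1 : ℝ) + m * 15 ≤ (1 + 15) ^ m := one_add_mul_le_pow (by norm_num) m
  have h2 : (1 : ℝ) ≤ m := by exact_mod_cast hm
  norm_num at h1
  linarith

/-- The key estimate: if the spectral radius of `q^* + λ q` is bounded in `λ`, then
`q + q^* = 0`. -/
theorem add_star_eq_zero [Nontrivial C] (q : C) {M : ℝ} (hM : 0 ≤ M)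
    (h : ∀ l : ℂ, ∀ μ ∈ spectrum ℂ (star q + l • q), ‖μ‖ ≤ M) : star q + q = 0 := by
  by_contra hne
  let _ := CStarAlgebra.spectralOrder C
  let _ := CStarAlgebra.spectralOrderedRing C
  set s : ℝ := ‖star q + q‖ with hs
  have hs0 : 0 < s := norm_pos_iff.2 hne
  set ρ : ℝ := M + 1 with hρdef
  have hρ : M < ρ := by linarith
  have hρ0 : 0 < ρ := by linarith
  set R : ℝ := 16 * ρ ^ 2 / s ^ 2 with hR
  have hR0 : 0 < R := by positivity
  obtain ⟨k, hk1, hk⟩ := exists_uniform (star q) q hM hρ h R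
  obtain ⟨k', rfl⟩ : ∃ k', k = k' + 1 := ⟨k - 1, by omega⟩
  set m : ℕ := 2 ^ k' with hm
  have hm1 : 1 ≤ m := Nat.one_le_two_pow
  have hn : 2 ^ (k' + 1) = 2 * m := by rw [pow_succ, mul_comm]
  obtain ⟨p, hp⟩ := exists_coeff (star q) q (2 * m)
  obtain ⟨N, hN⟩ : ∃ N, N = 2 * m + 1 := ⟨_, rfl⟩
  have hN0 : N ≠ 0 := by omega
  set ζ : ℂ := Complex.exp (2 * Real.pi * Complex.I / N) with hζdef
  have hζ : IsPrimitiveRoot ζ N := Complex.isPrimitiveRoot_exp N hN0
  have hζn : ∀ j : ℕ, ‖ζ ^ j‖ = 1 := fun j => by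
    rw [norm_pow, hζ.norm'_eq_one hN0, one_pow]
  -- upper bound
  have hup : (N : ℝ) * R ^ m * ‖p m‖ ≤ N * ρ ^ (2 * m) := by
    have h1 := middle p m hN hζ (R : ℂ)
    have h2 : ∀ j ∈ Finset.range N, ‖(ζ ^ j) ^ (N - m) •
        ∑ i ∈ Finset.range (2 * m + 1), ((R : ℂ) * ζ ^ j) ^ i • p i‖ ≤ ρ ^ (2 * m) := by
      intro j _
      rw [norm_smul, norm_pow, hζn, one_pow, one_mul, ← hp]
      have h3 := hk ((R : ℂ) * ζ ^ j) (by
        rw [norm_mul, hζn, mul_one, Complex.norm_real, Real.norm_of_nonneg hR0.le])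
      rw [hn] at h3
      exact h3.le
    have h4 := norm_sum_le_of_le _ h2
    rw [h1, norm_smul, norm_mul, Complex.norm_natCast, norm_pow, Complex.norm_real,
      Real.norm_of_nonneg hR0.le, Finset.sum_const, Finset.card_range, nsmul_eq_mul] at h4
    exact h4
  -- lower bound
  have hlow : s ^ (2 * m) ≤ N * ‖p m‖ := by
    have h1 := middle p m hN hζ 1
    rw [one_pow, mul_one] at h1
    set ω : ℂ := Complex.exp (Real.pi * Complex.I / N) with hω
    have hω2 : ω ^ 2 = ζ := by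
      rw [hω, hζdef, ← Complex.exp_nat_mul]
      congr 1
      push_cast
      ring
    have hωn : ∀ j : ℕ, ‖ω ^ j‖ = 1 := by
      intro j
      have h2 := hζn j
      rw [← hω2, ← pow_mul, mul_comm, pow_mul, norm_pow] at h2
      have h3 := norm_nonneg (ω ^ j)
      nlinarith
    have hωs : ∀ j : ℕ, star (ω ^ j) * ω ^ j = 1 := by
      intro j
      have h2 := Complex.conj_mul' (ω ^ j)
      rw [hωn j] at h2
      simpa using h2
    let hh : ℕ → C := fun j => star (ω ^ j) • star q + ω ^ j • q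
    have hhsa : ∀ j, IsSelfAdjoint (hh j) := by
      intro j
      show star (hh j) = hh j
      simp only [hh, star_add, star_smul, star_star]
      rw [add_comm]
    have h3 : ∀ j ∈ Finset.range N, (ζ ^ j) ^ (N - m) •
        ∑ i ∈ Finset.range (2 * m + 1), ((1 : ℂ) * ζ ^ j) ^ i • p i = hh j ^ (2 * m) := by
      intro j _
      rw [← hp, one_mul]
      have h4 : star q + ζ ^ j • q = ω ^ j • hh j := by
        simp only [hh, smul_add, smul_smul]
        rw [mul_comm (ω ^ j) (star (ω ^ j)), hωs, one_smul, ← hω2, ← pow_mul, mul_comm 2 j,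
          pow_mul, sq]
      rw [h4, smul_pow, smul_smul]
      have h5 : (ζ ^ j) ^ (N - m) * (ω ^ j) ^ (2 * m) = 1 := by
        rw [pow_mul (ω ^ j) 2 m, ← pow_mul ω j 2, mul_comm j 2, pow_mul ω 2 j, hω2, ← pow_add,
          show N - m + m = N by omega, ← pow_mul, mul_comm, pow_mul, hζ.pow_eq_one, one_pow]
      rw [h5, one_smul]
    rw [Finset.sum_congr rfl h3] at h1
    have hpos : ∀ j, 0 ≤ hh j ^ (2 * m) := by
      intro j
      have h6 : hh j ^ (2 * m) = star (hh j ^ m) * hh j ^ m := by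
        rw [star_pow, (hhsa j).star_eq, ← pow_add]
        congr 1
        ring
      rw [h6]
      exact star_mul_self_nonneg _
    have h7 : hh 0 ^ (2 * m) ≤ ∑ j ∈ Finset.range N, hh j ^ (2 * m) :=
      Finset.single_le_sum (f := fun j => hh j ^ (2 * m)) (fun j _ => hpos j)
        (Finset.mem_range.2 (by omega))
    have h8 : ‖hh 0 ^ (2 * m)‖ ≤ ‖∑ j ∈ Finset.range N, hh j ^ (2 * m)‖ :=
      CStarAlgebra.norm_le_norm_of_nonneg_of_le (hpos 0) h7
    rw [h1, norm_smul, Complex.norm_natCast] at h8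
    have h9 : hh 0 = star q + q := by simp [hh]
    have h10 : ‖hh 0 ^ (2 * m)‖ = s ^ (2 * m) := by
      rw [← hn]
      have := (hhsa 0).nnnorm_pow_two_pow (k' + 1)
      have h11 := congrArg NNReal.toReal this
      push_cast at h11
      rw [h11, h9]
    rw [h10] at h8
    exact h8
  -- conclusion
  have hNR : (0 : ℝ) < N := by exact_mod_cast Nat.pos_of_ne_zero hN0
  have h1 : R ^ m * s ^ (2 * m) ≤ N * ρ ^ (2 * m) := by
    calc R ^ m * s ^ (2 * m) ≤ R ^ m * (N * ‖p m‖) := by gcongr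
      _ = N * R ^ m * ‖p m‖ := by ring
      _ ≤ _ := hup
  have h2 : R ^ m * s ^ (2 * m) = 16 ^ m * ρ ^ (2 * m) := by
    rw [hR, pow_mul, pow_mul, ← mul_pow, ← mul_pow]
    congr 1
    field_simp
  rw [h2] at h1
  have h3 : (16 : ℝ) ^ m ≤ N := le_of_mul_le_mul_right h1 (by positivity)
  apply scalar_contra hm1
  rw [hN] at h3
  push_cast at h3
  exact h3

/-- A Zemánek type characterisation of `0` in a C*-algebra. -/
theorem eq_zero_of_bounded (q : C)
    (h : ∀ b : C, ∃ M : ℝ, ∀ l : ℂ, ∀ μ ∈ spectrum ℂ (b + l • q), ‖μ‖ ≤ M) : q = 0 := by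
  rcases subsingleton_or_nontrivial C with hC | hC
  · exact Subsingleton.elim _ _
  have h1 : star q + q = 0 := by
    obtain ⟨M, hM⟩ := h (star q)
    exact add_star_eq_zero q (le_max_right M 0) fun l μ hμ => (hM l μ hμ).trans (le_max_left _ _)
  have h2 : star (Complex.I • q) + Complex.I • q = 0 := by
    obtain ⟨M, hM⟩ := h (star (Complex.I • q))
    refine add_star_eq_zero (Complex.I • q) (le_max_right M 0) fun l μ hμ => ?_
    rw [smul_smul] at hμ
    exact (hM _ μ hμ).trans (le_max_left _ _)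
  rw [star_smul, Complex.star_def, Complex.conj_I, neg_smul, neg_add_eq_sub, ← smul_sub] at h2
  have h3 : q - star q = 0 := (smul_eq_zero.1 h2).resolve_left Complex.I_ne_zero
  have h4 : (2 : ℂ) • q = 0 := by
    calc (2 : ℂ) • q = (star q + q) + (q - star q) := by rw [two_smul]; abel
      _ = 0 := by rw [h1, h3, add_zero]
  exact (smul_eq_zero.1 h4).resolve_left two_ne_zero

end cstar

end Pool.Agent.Helper757.GL
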