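import Pool.Agent.Helper757.GL.Defs
import Pool.Agent.Helper757.GL.Quot
import Pool.Agent.Helper757.GL.Zem

set_option autoImplicit false

open scoped ComplexOrder Topology
open Filter

noncomputable section

namespace Pool.Agent.Helper757.GL

section ideal

variable {A : Type*} [CStarAlgebra A]

/-- `closedIdeal S` as a submodule. -/
def closedSub (S : Set A) : Submodule ℂ A where
  carrier := closedIdeal S
  zero_mem' := fun I _ _ => I.zero_mem
  add_mem' := fun ha hb I h1 h2 => I.add_mem (ha I h1 h2) (hb I h1 h2)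
  smul_mem' := by
    intro c x hx I h1 h2
    have h3 : c • x = (c • (1 : A)) * x := by rw [smul_mul_assoc, one_mul]
    rw [h3]
    exact I.mul_mem_left _ _ (hx I h1 h2)

theorem subset_closedSub (S : Set A) : S ⊆ closedSub S := fun _ hx _ _ h2 => h2 hx

theorem closedSub_CI (S : Set A) : CI (closedSub S) where
  closed := by
    have h : ((closedSub S : Submodule ℂ A) : Set A)
        = ⋂ (I : TwoSidedIdeal A) (_ : IsClosed (I : Set A)) (_ : S ⊆ (I : Set A)), (I : Set A) := by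
      ext x
      simp only [Set.mem_iInter]
      rfl
    rw [h]
    exact isClosed_iInter fun I => isClosed_iInter fun h1 => isClosed_iInter fun _ => h1
  hl := fun a x hx I h1 h2 => I.mul_mem_left _ _ (hx I h1 h2)
  hr := fun a x hx I h1 h2 => I.mul_mem_right _ _ (hx I h1 h2)

theorem norm_one_le' : ‖(1 : A)‖ ≤ 1 := by
  rcases subsingleton_or_nontrivial A with h | h
  · rw [Subsingleton.elim (1 : A) 0, norm_zero]
    exact zero_le_one
  · rw [CStarRing.norm_one]

theorem center_comm (v : Subalgebra.center ℂ A) (a : A) : (v : A) * a = a * v :=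
  (Subalgebra.mem_center_iff.1 v.2 a).symm

theorem star_center {z : A} (hz : z ∈ Subalgebra.center ℂ A) : star z ∈ Subalgebra.center ℂ A := by
  rw [Subalgebra.mem_center_iff] at hz ⊢
  intro b
  have := congrArg star (hz (star b))
  rw [star_mul, star_mul, star_star] at this
  exact this.symm

/-- The elements that become small after multiplication by suitable central elements `v` with
`v(m) = 1`. -/
def Small (m : Ideal (Subalgebra.center ℂ A)) (x : A) : Prop :=
  ∀ δ : ℝ, 0 < δ → ∃ v : Subalgebra.center ℂ A, v - 1 ∈ m ∧ ‖(v : A)‖ ≤ 1 ∧ ‖(v : A) * x‖ < δ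

variable (m : Ideal (Subalgebra.center ℂ A))

theorem small_zero : Small m 0 := by
  intro δ hδ
  refine ⟨1, ?_, ?_, ?_⟩
  · rw [sub_self]; exact m.zero_mem
  · exact norm_one_le'
  · rw [mul_zero, norm_zero]; exact hδ

theorem small_add {x y : A} (hx : Small m x) (hy : Small m y) : Small m (x + y) := by
  intro δ hδ
  obtain ⟨v, hv1, hv2, hv3⟩ := hx (δ / 2) (half_pos hδ)
  obtain ⟨w, hw1, hw2, hw3⟩ := hy (δ / 2) (half_pos hδ)
  refine ⟨v * w, ?_, ?_, ?_⟩
  · have : v * w - 1 = (v - 1) * w + (w - 1) := by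
      apply Subtype.ext
      show (v : A) * w - 1 = ((v : A) - 1) * w + ((w : A) - 1)
      rw [sub_mul, one_mul, sub_add_sub_cancel]
    rw [this]
    exact m.add_mem (m.mul_mem_right _ hv1) hw1
  · rw [Subalgebra.coe_mul]
    exact (norm_mul_le _ _).trans (by nlinarith [norm_nonneg (v : A), norm_nonneg (w : A)])
  · rw [Subalgebra.coe_mul, mul_add]
    have h1 : (v : A) * w * x = w * (v * x) := by rw [center_comm v (w : A), mul_assoc]
    have h2 : (v : A) * w * y = v * (w * y) := mul_assoc _ _ _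
    rw [h1, h2]
    have h3 : ‖(w : A) * (v * x)‖ ≤ ‖(v : A) * x‖ := by
      refine (norm_mul_le _ _).trans ?_
      nlinarith [norm_nonneg ((v : A) * x)]
    have h4 : ‖(v : A) * (w * y)‖ ≤ ‖(w : A) * y‖ := by
      refine (norm_mul_le _ _).trans ?_
      nlinarith [norm_nonneg ((w : A) * y)]
    calc _ ≤ ‖(w : A) * (v * x)‖ + ‖(v : A) * (w * y)‖ := norm_add_le _ _
      _ < δ := by linarith

theorem small_neg {x : A} (hx : Small m x) : Small m (-x) := by
  intro δ hδ
  obtain ⟨v, hv1, hv2, hv3⟩ := hx δ hδ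
  refine ⟨v, hv1, hv2, ?_⟩
  rw [mul_neg, norm_neg]
  exact hv3

theorem small_mul_left {a x : A} (hx : Small m x) : Small m (a * x) := by
  intro δ hδ
  obtain ⟨v, hv1, hv2, hv3⟩ := hx (δ / (‖a‖ + 1)) (by positivity)
  refine ⟨v, hv1, hv2, ?_⟩
  have h1 : (v : A) * (a * x) = a * (v * x) := by rw [← mul_assoc, center_comm v a, mul_assoc]
  rw [h1]
  rw [lt_div_iff₀ (by positivity)] at hv3
  refine (norm_mul_le _ _).trans_lt ?_
  nlinarith [norm_nonneg ((v : A) * x), norm_nonneg a]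

theorem small_mul_right {a x : A} (hx : Small m x) : Small m (x * a) := by
  intro δ hδ
  obtain ⟨v, hv1, hv2, hv3⟩ := hx (δ / (‖a‖ + 1)) (by positivity)
  refine ⟨v, hv1, hv2, ?_⟩
  rw [← mul_assoc]
  rw [lt_div_iff₀ (by positivity)] at hv3
  refine (norm_mul_le _ _).trans_lt ?_
  nlinarith [norm_nonneg ((v : A) * x), norm_nonneg a]

theorem small_closed : IsClosed {x : A | Small m x} := by
  rw [← closure_subset_iff_isClosed]
  intro x hx δ hδ
  rw [Metric.mem_closure_iff] at hx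
  obtain ⟨y, hy, hxy⟩ := hx (δ / 2) (half_pos hδ)
  rw [dist_eq_norm] at hxy
  obtain ⟨v, hv1, hv2, hv3⟩ := (show Small m y from hy) (δ / 2) (half_pos hδ)
  refine ⟨v, hv1, hv2, ?_⟩
  have h1 : (v : A) * x = v * (x - y) + v * y := by rw [mul_sub, sub_add_cancel]
  rw [h1]
  have h2 : ‖(v : A) * (x - y)‖ ≤ ‖x - y‖ := by
    refine (norm_mul_le _ _).trans ?_
    nlinarith [norm_nonneg (x - y)]
  calc _ ≤ ‖(v : A) * (x - y)‖ + ‖(v : A) * y‖ := norm_add_le _ _
    _ < δ := by linarith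

theorem small_of_mem {z : Subalgebra.center ℂ A} (hz : z ∈ m) : Small m (z : A) := by
  intro ε hε
  obtain ⟨δ, hδ, h1⟩ := norm_mul_cut_lt (z : A) hε
  have hcut : cut (z : A) δ ∈ Subalgebra.center ℂ A := by
    rw [Subalgebra.mem_center_iff]
    intro b
    exact (cut_comm (z : A) δ (center_comm z) b).symm
  have hcog : cog (z : A) δ ∈ Subalgebra.center ℂ A := by
    rw [Subalgebra.mem_center_iff]
    intro b
    exact (cog_comm (z : A) δ (center_comm z) b).symm
  refine ⟨⟨cut (z : A) δ, hcut⟩, ?_, norm_cut_le _ hδ, ?_⟩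
  · have h2 : (⟨cut (z : A) δ, hcut⟩ : Subalgebra.center ℂ A) - 1
        = -((⟨star (z : A), star_center z.2⟩ * z) * ⟨cog (z : A) δ, hcog⟩) := by
      apply Subtype.ext
      show cut (z : A) δ - 1 = -(star (z : A) * z * cog (z : A) δ)
      rw [← one_sub_cut (z : A) hδ, neg_sub]
    rw [h2]
    exact m.neg_mem (m.mul_mem_right _ (m.mul_mem_left _ hz))
  · show ‖cut (z : A) δ * z‖ < ε
    rw [cut_comm (z : A) δ (center_comm z)]
    exact h1

theorem small_of_mem_closedIdeal {x : A} (hx : x ∈ closedIdeal (carrier m)) : Small m x := by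
  have h1 := hx (TwoSidedIdeal.mk' {x : A | Small m x} (small_zero m) (small_add m) (small_neg m)
    (small_mul_left m) (small_mul_right m)) (by
      rw [TwoSidedIdeal.coe_mk']
      exact small_closed m) (by
      rw [TwoSidedIdeal.coe_mk']
      rintro a ⟨z, hz, rfl⟩
      exact small_of_mem m hz)
  rw [TwoSidedIdeal.mem_mk'] at h1
  exact h1

/-- The pencil estimate. -/
theorem pencil {y v : A} (hc : Commute v y) (hv : ‖v‖ ≤ 1) (hyv : ‖v * y‖ ≤ 1) {Y : ℝ}
    (hY1 : 1 ≤ Y) (hyY : ‖y‖ ≤ Y) {c : ℂ} (hcY : 4 * Y ≤ ‖c‖) :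
    ∀ μ ∈ spectrum ℂ (y + c • v), ‖μ‖ ≤ 1 + ‖c‖ := by
  have hY0 : 0 < Y := by linarith
  have hc0 : 0 < ‖c‖ := by linarith
  -- mixed powers
  have hmix : ∀ k n : ℕ, k ≤ n → ‖(c • v) ^ k * y ^ (n - k)‖ ≤ ‖c‖ ^ k + ‖c‖ ^ n / 2 ^ n := by
    intro k n hkn
    rw [smul_pow, smul_mul_assoc, norm_smul, norm_pow]
    have hpos : 0 ≤ ‖c‖ ^ n / 2 ^ n := by positivity
    rcases Nat.lt_or_ge k (n - k) with h | h
    · -- few factors v
      obtain ⟨r, hr⟩ : ∃ r, n - k = k + r := ⟨n - k - k, by omega⟩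
      have h1 : v ^ k * y ^ (n - k) = (v * y) ^ k * y ^ r := by
        rw [hr, pow_add, ← mul_assoc, hc.mul_pow]
      have h2 : ‖v ^ k * y ^ (n - k)‖ ≤ Y ^ (n - k) := by
        rw [h1]
        calc ‖(v * y) ^ k * y ^ r‖ ≤ ‖(v * y) ^ k‖ * ‖y ^ r‖ := norm_mul_le _ _
          _ ≤ 1 * Y ^ r := by
            have h3 : ‖(v * y) ^ k‖ ≤ 1 := by
              rcases k.eq_zero_or_pos with h0 | h0
              · rw [h0, pow_zero]; exact norm_one_le'
              · exact (norm_pow_le' _ h0).trans (pow_le_one₀ (norm_nonneg _) hyv)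
            have h4 : ‖y ^ r‖ ≤ Y ^ r := by
              rcases r.eq_zero_or_pos with h0 | h0
              · rw [h0, pow_zero, pow_zero]; exact norm_one_le'
              · exact (norm_pow_le' _ h0).trans (pow_le_pow_left₀ (norm_nonneg _) hyY _)
            gcongr
          _ ≤ Y ^ (n - k) := by
            rw [one_mul]
            exact pow_le_pow_right₀ hY1 (by omega)
      have h5 : ‖c‖ ^ k * Y ^ (n - k) ≤ ‖c‖ ^ n / 2 ^ n := by
        rw [le_div_iff₀ (by positivity)]
        have h6 : (2 : ℝ) ^ n ≤ 4 ^ (n - k) := by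
          have : (4 : ℝ) = 2 ^ 2 := by norm_num
          rw [this, ← pow_mul]
          exact pow_le_pow_right₀ (by norm_num) (by omega)
        calc ‖c‖ ^ k * Y ^ (n - k) * 2 ^ n ≤ ‖c‖ ^ k * Y ^ (n - k) * 4 ^ (n - k) := by gcongr
          _ = ‖c‖ ^ k * (4 * Y) ^ (n - k) := by rw [mul_pow]; ring
          _ ≤ ‖c‖ ^ k * ‖c‖ ^ (n - k) := by gcongr
          _ = ‖c‖ ^ n := by rw [← pow_add]; congr 1; omega
      calc ‖c‖ ^ k * ‖v ^ k * y ^ (n - k)‖ ≤ ‖c‖ ^ k * Y ^ (n - k) := by gcongr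
        _ ≤ ‖c‖ ^ n / 2 ^ n := h5
        _ ≤ _ := le_add_of_nonneg_left (by positivity)
    · -- many factors v
      obtain ⟨r, hr⟩ : ∃ r, k = r + (n - k) := ⟨k - (n - k), by omega⟩
      have h1 : v ^ k * y ^ (n - k) = v ^ r * (v * y) ^ (n - k) := by
        conv_lhs => rw [hr]
        rw [pow_add, mul_assoc, hc.mul_pow]
        congr 3
        all_goals omega
      have h2 : ‖v ^ k * y ^ (n - k)‖ ≤ 1 := by
        rw [h1]
        refine (norm_mul_le _ _).trans ?_
        have h3 : ‖v ^ r‖ ≤ 1 := by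
          rcases r.eq_zero_or_pos with h0 | h0
          · rw [h0, pow_zero]; exact norm_one_le'
          · exact (norm_pow_le' _ h0).trans (pow_le_one₀ (norm_nonneg _) hv)
        have h4 : ‖(v * y) ^ (n - k)‖ ≤ 1 := by
          rcases (n - k).eq_zero_or_pos with h0 | h0
          · rw [h0, pow_zero]; exact norm_one_le'
          · exact (norm_pow_le' _ h0).trans (pow_le_one₀ (norm_nonneg _) hyv)
        nlinarith [norm_nonneg (v ^ r), norm_nonneg ((v * y) ^ (n - k))]
      calc ‖c‖ ^ k * ‖v ^ k * y ^ (n - k)‖ ≤ ‖c‖ ^ k * 1 := by gcongr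
        _ = ‖c‖ ^ k := mul_one _
        _ ≤ _ := le_add_of_nonneg_right hpos
  have hpow : ∀ n : ℕ, ‖(y + c • v) ^ n‖ ≤ 2 * (1 + ‖c‖) ^ n := by
    intro n
    have hc' : Commute (c • v) y := hc.smul_left c
    rw [add_comm, hc'.add_pow]
    calc ‖∑ k ∈ Finset.range (n + 1), (c • v) ^ k * y ^ (n - k) * (n.choose k : A)‖
        ≤ ∑ k ∈ Finset.range (n + 1), ‖(c • v) ^ k * y ^ (n - k) * (n.choose k : A)‖ :=
          norm_sum_le _ _
      _ ≤ ∑ k ∈ Finset.range (n + 1), (‖c‖ ^ k + ‖c‖ ^ n / 2 ^ n) * n.choose k := by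
          apply Finset.sum_le_sum
          intro k hk
          rw [Finset.mem_range] at hk
          rw [← nsmul_eq_mul']
          refine (norm_nsmul_le ..).trans ?_
          rw [mul_comm]
          exact mul_le_mul_of_nonneg_right (hmix k n (by omega)) (by positivity)
      _ = (1 + ‖c‖) ^ n + ‖c‖ ^ n := by
          simp_rw [add_mul]
          rw [Finset.sum_add_distrib, ← Finset.mul_sum]
          congr 1
          · rw [add_comm 1 ‖c‖, add_pow]
            apply Finset.sum_congr rfl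
            intro k _
            rw [one_pow, mul_one]
          · have := Nat.sum_range_choose n
            have h7 : ∑ k ∈ Finset.range (n + 1), (n.choose k : ℝ) = 2 ^ n := by
              exact_mod_cast this
            rw [h7]
            field_simp
      _ ≤ 2 * (1 + ‖c‖) ^ n := by
          have : ‖c‖ ^ n ≤ (1 + ‖c‖) ^ n := pow_le_pow_left₀ hc0.le (by linarith) _
          linarith
  intro μ hμ
  by_contra hcon
  push Not at hcon
  have h1c : 0 < 1 + ‖c‖ := by linarith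
  have h1 : 1 < ‖μ‖ / (1 + ‖c‖) := by rwa [one_lt_div h1c]
  obtain ⟨n, hn⟩ := pow_unbounded_of_one_lt 2 h1
  have h2 : μ ^ n ∈ spectrum ℂ ((y + c • v) ^ n) := spectrum.pow_mem_pow _ n hμ
  have h3 := spectrum.norm_le_norm_mul_of_mem h2
  rw [norm_pow] at h3
  have h4 : ‖μ‖ ^ n ≤ 2 * (1 + ‖c‖) ^ n := by
    refine h3.trans ((mul_le_mul (hpow n) norm_one_le' (norm_nonneg _) (by positivity)).trans ?_)
    rw [mul_one]
  rw [div_pow, lt_div_iff₀ (by positivity)] at hn
  linarith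

end ideal

section main

variable {A B : Type*} [CStarAlgebra A] [CStarAlgebra B]

theorem spec_bound {T : A →ₗ[ℂ] B} (hr : ∀ x, spectralRadius ℂ (T x) ≤ spectralRadius ℂ x) {w : A}
    {K : ℝ} (hK : 0 ≤ K) (h : ∀ μ ∈ spectrum ℂ w, ‖μ‖ ≤ K) : ∀ μ ∈ spectrum ℂ (T w), ‖μ‖ ≤ K := by
  intro μ hμ
  have h1 : spectralRadius ℂ w ≤ ENNReal.ofReal K := by
    unfold spectralRadius
    exact iSup₂_le fun ν hν => ENNReal.coe_le_coe.2 (NNReal.le_toNNReal_of_coe_le (h ν hν))
  have h2 : (‖μ‖₊ : ENNReal) ≤ spectralRadius ℂ (T w) := by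
    unfold spectralRadius
    exact le_iSup₂_of_le μ hμ le_rfl
  have h3 := h2.trans ((hr w).trans h1)
  have h4 : (‖μ‖₊ : ENNReal) ≤ (K.toNNReal : ENNReal) := h3
  rw [ENNReal.coe_le_coe, Real.le_toNNReal_iff_coe_le hK] at h4
  exact h4

/-- The main theorem, for spectral contractions and arbitrary ideals of the centre. -/
theorem main (T : A →ₗ[ℂ] B) (h1 : T 1 = 1) (hs : Function.Surjective T)
    (hr : ∀ x, spectralRadius ℂ (T x) ≤ spectralRadius ℂ x)
    (m : Ideal (Subalgebra.center ℂ A)) {x : A} (hx : x ∈ closedIdeal (carrier m)) :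
    T x ∈ closedIdeal (T '' carrier m) := by
  have H : CI (closedSub (T '' carrier m)) := closedSub_CI _
  suffices h : mkHom H (T x) = 0 from (mkHom_eq_zero H _).1 h
  have hTv : ∀ v : Subalgebra.center ℂ A, v - 1 ∈ m → mkHom H (T (v : A)) = 1 := by
    intro v hv
    have h2 : mkHom H (T ((v : A) - 1)) = 0 := by
      rw [mkHom_eq_zero]
      apply subset_closedSub
      exact ⟨(v : A) - 1, ⟨v - 1, hv, rfl⟩, rfl⟩
    rw [map_sub, h1, map_sub, map_one, sub_eq_zero] at h2
    exact h2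
  apply eq_zero_of_bounded
  intro b
  obtain ⟨b', rfl⟩ := mkHom_surj H b
  obtain ⟨a, rfl⟩ := hs b'
  refine ⟨‖a‖ + 1, fun l μ hμ => ?_⟩
  rcases eq_or_ne μ 0 with h0 | h0
  · rw [h0, norm_zero]; positivity
  set M : ℝ := ‖a‖ + 1 with hM
  have hM0 : 0 < M := by positivity
  obtain ⟨v, hv1, hv2, hv3⟩ := small_of_mem_closedIdeal m hx (1 / (‖l‖ + 1)) (by positivity)
  set y : A := ((M⁻¹ : ℝ) : ℂ) • (a + l • x) with hy
  have hvy : ‖(v : A) * y‖ ≤ 1 := by
    have h2 : ‖(v : A) * (a + l • x)‖ ≤ M := by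
      rw [mul_add, mul_smul_comm]
      refine (norm_add_le _ _).trans ?_
      have h3 : ‖(v : A) * a‖ ≤ ‖a‖ := by
        refine (norm_mul_le _ _).trans ?_
        nlinarith [norm_nonneg a]
      have h4 : ‖l • ((v : A) * x)‖ ≤ 1 := by
        rw [norm_smul]
        rw [lt_div_iff₀ (by positivity)] at hv3
        nlinarith [norm_nonneg ((v : A) * x), norm_nonneg l]
      linarith
    rw [hy, mul_smul_comm, norm_smul, Complex.norm_real, Real.norm_of_nonneg (by positivity)]
    rw [inv_mul_le_iff₀ hM0, mul_one]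
    exact h2
  set Y : ℝ := max 1 ‖y‖ with hY
  have hY1 : 1 ≤ Y := le_max_left _ _
  set c : ℂ := ((4 * Y / ‖μ‖ : ℝ) : ℂ) * μ with hc
  have hμ0 : 0 < ‖μ‖ := norm_pos_iff.2 h0
  have hcn : ‖c‖ = 4 * Y := by
    rw [hc, norm_mul, Complex.norm_real, Real.norm_of_nonneg (by positivity)]
    field_simp
  have h5 := spec_bound hr (K := 1 + ‖c‖) (by positivity)
    (pencil (y := y) (v := (v : A)) (center_comm v y) hv2 hvy hY1 (le_max_right _ _) hcn.ge)
  have h6 : mkHom H (T (y + c • (v : A)))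
      = ((M⁻¹ : ℝ) : ℂ) • (mkHom H (T a) + l • mkHom H (T x)) + algebraMap ℂ _ c := by
    rw [hy]
    simp only [map_add, map_smul, hTv v hv1]
    rw [Algebra.algebraMap_eq_smul_one]
  have h7 : ((M⁻¹ : ℝ) : ℂ) * μ + c ∈ spectrum ℂ (mkHom H (T (y + c • (v : A)))) := by
    rw [h6]
    have h8 : ((M⁻¹ : ℝ) : ℂ) * μ
        ∈ spectrum ℂ (((M⁻¹ : ℝ) : ℂ) • (mkHom H (T a) + l • mkHom H (T x))) := by
      have hne : ((M⁻¹ : ℝ) : ℂ) ≠ 0 := by
        rw [Complex.ofReal_ne_zero]
        positivity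
      have h9 := spectrum.smul_mem_smul_iff (r := Units.mk0 _ hne) (s := μ)
        (a := mkHom H (T a) + l • mkHom H (T x))
      exact h9.2 hμ
    rw [add_comm _ (algebraMap ℂ _ c)]
    exact spectrum.add_mem_add_iff.2 h8
  have h10 := h5 _ (AlgHom.spectrum_apply_subset (mkHom H) _ h7)
  have h11 : ((M⁻¹ : ℝ) : ℂ) * μ + c = ((M⁻¹ + 4 * Y / ‖μ‖ : ℝ) : ℂ) * μ := by
    rw [hc]
    push_cast
    ring
  rw [h11, norm_mul, Complex.norm_real, Real.norm_of_nonneg (by positivity), hcn, add_mul] at h10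
  have h12 : 4 * Y / ‖μ‖ * ‖μ‖ = 4 * Y := by field_simp
  rw [h12] at h10
  have h13 : M⁻¹ * ‖μ‖ ≤ 1 := by linarith
  rwa [inv_mul_le_iff₀ hM0, mul_one] at h13

end main

end Pool.Agent.Helper757.GL
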